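import Pool.Agent.Run7.h408.EF.Stm

/-!
# Project EF (helper408), piece `P6a` (`StGx`): the gradient of an eigenfunction exists

The gradients of the approximating `C¹` functions form a Cauchy sequence in `L²`, and `L²` is
complete.
-/

set_option autoImplicit false

open Set Filter Topology MeasureTheory
open scoped Real ContDiff
open Pool.Agent.Y262.QE Pool.Agent.Y264.QR Pool.Agent.Run7.h408.EF

noncomputable section

namespace Pool.Agent.Run7.h305.EFGx

/-- the square of the norm of a difference in `L²` -/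
theorem normSq_sub {M : Type} [MeasurableSpace M] {μ : Measure M} (f g : Lp ℂ 2 μ) (a b : M → ℂ)
    (hf : (f : M → ℂ) =ᵐ[μ] a) (hg : (g : M → ℂ) =ᵐ[μ] b) :
    ‖f - g‖ ^ 2 = ∫ x, ‖a x - b x‖ ^ 2 ∂μ := by
  have h1 : ‖f - g‖ ^ 2 = inner ℝ (f - g) (f - g) := (real_inner_self_eq_norm_sq _).symm
  rw [h1, MeasureTheory.L2.inner_def]
  refine integral_congr_ae ?_
  filter_upwards [hf, hg, Lp.coeFn_sub f g] with x h2 h3 h4
  rw [h4, Pi.sub_apply, h2, h3, real_inner_self_eq_norm_sq]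

/-- the inner product in `L²` -/
theorem inner_eq {M : Type} [MeasurableSpace M] {μ : Measure M} (f g : Lp ℂ 2 μ) (a b : M → ℂ)
    (hf : (f : M → ℂ) =ᵐ[μ] a) (hg : (g : M → ℂ) =ᵐ[μ] b) :
    inner ℝ f g = ∫ x, inner ℝ (a x) (b x) ∂μ := by
  rw [MeasureTheory.L2.inner_def]
  refine integral_congr_ae ?_
  filter_upwards [hf, hg] with x h2 h3
  rw [h2, h3]

/-- the gradient of an eigenfunction exists -/
theorem t (hFin : StFin) (hGr : StGr) : StGx := by
  intro M _ _ _ _ μ D hD lam u hu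
  obtain ⟨F, hF, hFu, hFc, hFe⟩ := hu.ex
  haveI : IsFiniteMeasure μ := (hFin M μ D hD).1
  have hm : ∀ G, D.C1 G → MemLp (D.gr G) 2 μ := by
    intro G hG
    obtain ⟨-, h1, C, h2⟩ := (hGr M μ D hD).1 G hG
    exact MemLp.of_bound h1.aestronglyMeasurable C (Eventually.of_forall h2)
  let f : ℕ → Lp ℂ 2 μ := fun k => (hm (F k) (hF k)).toLp
  have hf : ∀ k, (f k : M → ℂ) =ᵐ[μ] D.gr (F k) := fun k => MemLp.coeFn_toLp _
  have hC : CauchySeq f := by
    rw [cauchySeq_iff_tendsto_dist_atTop_0]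
    have h1 : Tendsto (fun p : ℕ × ℕ => ‖f p.1 - f p.2‖ ^ 2) atTop (𝓝 0) := by
      refine hFc.congr fun p => ?_
      exact (normSq_sub _ _ _ _ (hf p.1) (hf p.2)).symm
    have h2 := h1.sqrt
    rw [Real.sqrt_zero] at h2
    refine h2.congr fun p => ?_
    rw [Real.sqrt_sq (norm_nonneg _), dist_eq_norm]
  obtain ⟨W, hW⟩ := cauchySeq_tendsto_of_complete hC
  refine ⟨W, Lp.memLp W, ⟨F, hF, hFu, ?_⟩, ?_⟩
  · have h1 : Tendsto (fun k => ‖f k - W‖ ^ 2) atTop (𝓝 0) := by
      have h2 : Tendsto (fun k => ‖f k - W‖) atTop (𝓝 0) :=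
        tendsto_iff_norm_sub_tendsto_zero.1 hW
      simpa using h2.pow 2
    refine h1.congr fun k => ?_
    exact normSq_sub _ _ _ _ (hf k) (Eventually.of_forall fun _ => rfl)
  · intro G hG
    let g : Lp ℂ 2 μ := (hm G hG).toLp
    have hg : (g : M → ℂ) =ᵐ[μ] D.gr G := MemLp.coeFn_toLp _
    have h1 : Tendsto (fun k => inner ℝ (f k) g) atTop (𝓝 (inner ℝ W g)) :=
      hW.inner tendsto_const_nhds
    have h2 : Tendsto (fun k => inner ℝ (f k) g) atTop (𝓝 (lam * ∫ x, u x * G x ∂μ)) := by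
      refine (hFe G hG).congr fun k => ?_
      exact (inner_eq _ _ _ _ (hf k) hg).symm
    rw [← inner_eq W g _ _ (Eventually.of_forall fun _ => rfl) hg]
    exact tendsto_nhds_unique h1 h2

/-- the form with all the hypotheses of the table -/
theorem t' (hFin : StFin) (hGr : StGr) (_ : StDenF) : StGx := t hFin hGr

end Pool.Agent.Run7.h305.EFGx
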